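import Pool.Agent.W2helper34.GT.Tree
import Pool.Agent.N24.TR.Tree

/-!
# The tree of `GL_2` of a division ring with a discrete valuation
-/

set_option autoImplicit false

namespace Pool.Agent.W2helper34.GR

open Pool.Agent.Y110.FJ (ClosedE)

/-- minus a discrete valuation of a division ring -/
structure DD (E : Type) [DivisionRing E] where
  D : E → ℤ
  mul : ∀ x y : E, x ≠ 0 → y ≠ 0 → D (x * y) = D x + D y
  add : ∀ x y : E, x ≠ 0 → y ≠ 0 → x + y ≠ 0 → D (x + y) ≤ max (D x) (D y)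
  pi : ∃ π : E, π ≠ 0 ∧ D π = 1

variable {E : Type} [DivisionRing E] (δ : DD E)

namespace DD

theorem one : δ.D 1 = 0 := by
  have := δ.mul 1 1 one_ne_zero one_ne_zero
  rw [mul_one] at this
  omega

theorem neg (x : E) (hx : x ≠ 0) : δ.D (-x) = δ.D x := by
  have h1 := δ.mul (-1) (-1) (by simp) (by simp)
  rw [neg_mul_neg, mul_one, δ.one] at h1
  have h2 := δ.mul (-1) x (by simp) hx
  rw [neg_one_mul] at h2
  omega

theorem inv (x : E) (hx : x ≠ 0) : δ.D x⁻¹ = - δ.D x := by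
  have h1 := δ.mul x x⁻¹ hx (inv_ne_zero hx)
  rw [mul_inv_cancel₀ hx, δ.one] at h1
  omega

/-- the degree of `x` is at most `n` -/
def M (x : E) (n : ℤ) : Prop := x ≠ 0 → δ.D x ≤ n

variable {δ}

theorem M.zero (n : ℤ) : δ.M 0 n := fun h => absurd rfl h

theorem M.mono {x : E} {n m : ℤ} (h : δ.M x n) (hnm : n ≤ m) : δ.M x m := fun hx => (h hx).trans hnm

theorem M.one : δ.M 1 0 := fun _ => δ.one.le

theorem M.add {x y : E} {n : ℤ} (hx : δ.M x n) (hy : δ.M y n) : δ.M (x + y) n := by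
  intro h
  by_cases h1 : x = 0
  · subst h1
    rw [zero_add] at h ⊢
    exact hy h
  by_cases h2 : y = 0
  · subst h2
    rw [add_zero] at h ⊢
    exact hx h
  have := δ.add x y h1 h2 h
  have := hx h1
  have := hy h2
  omega

theorem M.neg {x : E} {n : ℤ} (hx : δ.M x n) : δ.M (-x) n := by
  intro h
  have h1 : x ≠ 0 := fun h' => h (by rw [h', neg_zero])
  rw [δ.neg x h1]
  exact hx h1

theorem M.sub {x y : E} {n : ℤ} (hx : δ.M x n) (hy : δ.M y n) : δ.M (x - y) n := by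
  rw [sub_eq_add_neg]
  exact hx.add hy.neg

theorem M.mul {x y : E} {n m : ℤ} (hx : δ.M x n) (hy : δ.M y m) : δ.M (x * y) (n + m) := by
  intro h
  have h1 : x ≠ 0 := left_ne_zero_of_mul h
  have h2 : y ≠ 0 := right_ne_zero_of_mul h
  rw [δ.mul x y h1 h2]
  have := hx h1
  have := hy h2
  omega

end DD

open Matrix

/-- invertible `2 × 2` matrices -/
abbrev GG (E : Type) [Ring E] : Type := (Matrix (Fin 2) (Fin 2) E)ˣ

/-- all entries have degree at most `n` -/
def Bd (n : ℤ) (g : Matrix (Fin 2) (Fin 2) E) : Prop := ∀ i j, δ.M (g i j) n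

variable {δ}

theorem Bd.mono {n m : ℤ} {g : Matrix (Fin 2) (Fin 2) E} (h : Bd δ n g) (hnm : n ≤ m) : Bd δ m g :=
  fun i j => (h i j).mono hnm

theorem Bd.mul {n m : ℤ} {g h : Matrix (Fin 2) (Fin 2) E} (hg : Bd δ n g) (hh : Bd δ m h) :
    Bd δ (n + m) (g * h) := by
  intro i j
  rw [Matrix.mul_apply, Fin.sum_univ_two]
  exact ((hg i 0).mul (hh 0 j)).add ((hg i 1).mul (hh 1 j))

theorem Bd.one : Bd δ 0 (1 : Matrix (Fin 2) (Fin 2) E) := by
  intro i j
  by_cases h : i = j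
  · subst h
    rw [Matrix.one_apply_eq]
    exact DD.M.one
  · rw [Matrix.one_apply_ne h]
    exact DD.M.zero _

theorem exists_Bd (δ : DD E) (g : Matrix (Fin 2) (Fin 2) E) : ∃ n, Bd δ n g := by
  refine ⟨max (max (δ.D (g 0 0)) (δ.D (g 0 1))) (max (δ.D (g 1 0)) (δ.D (g 1 1))), ?_⟩
  intro i j _
  fin_cases i <;> fin_cases j
  all_goals
    simp only [Fin.zero_eta, Fin.mk_one] at *
    omega

variable (δ)

/-- the stabilizer of the base vertex -/
def HH : Subgroup (GG E) where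
  carrier := {g | ∃ n, Bd δ n g.val ∧ Bd δ (-n) (g⁻¹).val}
  one_mem' := ⟨0, Bd.one, by rw [inv_one]; exact Bd.one⟩
  mul_mem' := by
    rintro g h ⟨n, h1, h2⟩ ⟨m, h3, h4⟩
    refine ⟨n + m, ?_, ?_⟩
    · rw [Units.val_mul]
      exact h1.mul h3
    · rw [_root_.mul_inv_rev, Units.val_mul]
      have := h4.mul h2
      exact this.mono (by omega)
  inv_mem' := by
    rintro g ⟨n, h1, h2⟩
    refine ⟨-n, h2, ?_⟩
    rw [inv_inv, neg_neg]
    exact h1

variable {δ}

theorem mem_HH {g : GG E} : g ∈ HH δ ↔ ∃ n, Bd δ n g.val ∧ Bd δ (-n) (g⁻¹).val := Iff.rfl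

/-- elements of displacement one -/
def A1 (δ : DD E) (z : GG E) : Prop := z ∉ HH δ ∧ ∃ n, Bd δ n z.val ∧ Bd δ (1 - n) (z⁻¹).val

theorem A1.inv {z : GG E} (h : A1 δ z) : A1 δ z⁻¹ := by
  obtain ⟨h1, n, h2, h3⟩ := h
  refine ⟨fun h => h1 ((HH δ).inv_mem_iff.mp h), 1 - n, h3, ?_⟩
  rw [inv_inv]
  exact h2.mono (by omega)

theorem A1.congr {z a b : GG E} (h : A1 δ z) (ha : a ∈ HH δ) (hb : b ∈ HH δ) :
    A1 δ (a * z * b) := by
  obtain ⟨h1, n, h2, h3⟩ := h
  obtain ⟨k, h4, h5⟩ := ha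
  obtain ⟨l, h6, h7⟩ := hb
  refine ⟨fun h => h1 ?_, k + n + l, ?_, ?_⟩
  · have e : z = a⁻¹ * (a * z * b) * b⁻¹ := by group
    rw [e]
    exact (HH δ).mul_mem ((HH δ).mul_mem ((HH δ).inv_mem ⟨k, h4, h5⟩) h)
      ((HH δ).inv_mem ⟨l, h6, h7⟩)
  · rw [Units.val_mul, Units.val_mul]
    exact (h4.mul h2).mul h6
  · rw [_root_.mul_inv_rev, _root_.mul_inv_rev, Units.val_mul, Units.val_mul]
    exact (h7.mul (h3.mul h5)).mono (by omega)

/-- upper triangular matrices with last row `(0, 1)` -/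
def up (p a : E) (hp : p ≠ 0) : GG E where
  val := !![p, a; 0, 1]
  inv := !![p⁻¹, -(p⁻¹ * a); 0, 1]
  val_inv := by
    rw [Matrix.mul_fin_two]
    simp [Matrix.one_fin_two, hp]
  inv_val := by
    rw [Matrix.mul_fin_two]
    simp [Matrix.one_fin_two, hp]

theorem up_val (p a : E) (hp : p ≠ 0) : (up p a hp).val = !![p, a; 0, 1] := rfl

theorem up_inv (p a : E) (hp : p ≠ 0) : ((up p a hp)⁻¹).val = !![p⁻¹, -(p⁻¹ * a); 0, 1] := rfl

theorem up_mul {p a q b : E} (hp : p ≠ 0) (hq : q ≠ 0) :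
    up p a hp * up q b hq = up (p * q) (p * b + a) (mul_ne_zero hp hq) := by
  apply Units.ext
  rw [Units.val_mul, up_val, up_val, up_val, Matrix.mul_fin_two]
  simp

theorem up_inv_mul {p a q b : E} (hp : p ≠ 0) (hq : q ≠ 0) :
    (up p a hp)⁻¹ * up q b hq =
      up (p⁻¹ * q) (p⁻¹ * (b - a)) (mul_ne_zero (inv_ne_zero hp) hq) := by
  rw [inv_mul_eq_iff_eq_mul, up_mul]
  congr 1
  · rw [mul_inv_cancel_left₀ hp]
  · rw [mul_inv_cancel_left₀ hp, sub_add_cancel]

theorem Bd_up {r c : E} {hr : r ≠ 0} {n : ℤ} :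
    Bd δ n (up r c hr).val ↔ δ.D r ≤ n ∧ δ.M c n ∧ 0 ≤ n := by
  rw [up_val]
  constructor
  · intro h
    refine ⟨h 0 0 hr, h 0 1, ?_⟩
    have := h 1 1 one_ne_zero
    rwa [show (!![r, c; 0, 1] : Matrix (Fin 2) (Fin 2) E) 1 1 = 1 from rfl, δ.one] at this
  · rintro ⟨h1, h2, h3⟩ i j
    fin_cases i <;> fin_cases j
    · exact fun _ => h1
    · exact h2
    · exact DD.M.zero _
    · intro _
      show δ.D 1 ≤ n
      rw [δ.one]
      exact h3

theorem Bd_up_inv {r c : E} {hr : r ≠ 0} {n : ℤ} :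
    Bd δ n ((up r c hr)⁻¹).val ↔ -δ.D r ≤ n ∧ δ.M c (n + δ.D r) ∧ 0 ≤ n := by
  have e : (up r c hr)⁻¹ = up r⁻¹ (-(r⁻¹ * c)) (inv_ne_zero hr) := Units.ext rfl
  rw [e, Bd_up, δ.inv _ hr]
  refine and_congr_right fun _ => and_congr_left fun _ => ?_
  constructor
  · intro h hc
    have h1 : -(r⁻¹ * c) ≠ 0 := neg_ne_zero.mpr (mul_ne_zero (inv_ne_zero hr) hc)
    have h2 := h h1
    rw [δ.neg _ (mul_ne_zero (inv_ne_zero hr) hc), δ.mul _ _ (inv_ne_zero hr) hc,
      δ.inv _ hr] at h2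
    omega
  · intro h h1
    have hc : c ≠ 0 := by
      rintro rfl
      exact h1 (by rw [mul_zero, neg_zero])
    rw [δ.neg _ (mul_ne_zero (inv_ne_zero hr) hc), δ.mul _ _ (inv_ne_zero hr) hc, δ.inv _ hr]
    have := h hc
    omega

theorem up_mem {r c : E} {hr : r ≠ 0} : up r c hr ∈ HH δ ↔ δ.D r = 0 ∧ δ.M c 0 := by
  rw [mem_HH]
  constructor
  · rintro ⟨n, h1, h2⟩
    rw [Bd_up] at h1
    rw [Bd_up_inv] at h2
    have hn : n = 0 := by omega
    subst hn
    exact ⟨by omega, h1.2.1⟩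
  · rintro ⟨h1, h2⟩
    refine ⟨0, Bd_up.mpr ⟨h1.le, h2, le_rfl⟩, Bd_up_inv.mpr ⟨by omega, ?_, by omega⟩⟩
    rw [h1]
    exact h2

theorem up_A1 {r c : E} {hr : r ≠ 0} :
    A1 δ (up r c hr) ↔ (δ.D r = 1 ∧ δ.M c 1) ∨ (δ.D r = -1 ∧ δ.M c 0) := by
  constructor
  · rintro ⟨h1, n, h2, h3⟩
    rw [up_mem] at h1
    rw [Bd_up] at h2
    rw [Bd_up_inv] at h3
    have hn : n = 0 ∨ n = 1 := by omega
    rcases hn with rfl | rfl
    · right
      refine ⟨?_, h2.2.1⟩
      by_contra h4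
      exact h1 ⟨by omega, h2.2.1⟩
    · left
      refine ⟨?_, h2.2.1⟩
      by_contra h4
      have h5 : δ.D r = 0 := by omega
      refine h1 ⟨h5, ?_⟩
      have := h3.2.1
      rw [h5] at this
      exact this.mono (by omega)
  · rintro (⟨h1, h2⟩ | ⟨h1, h2⟩)
    · refine ⟨fun h => ?_, 1, Bd_up.mpr ⟨h1.le, h2, by omega⟩,
        Bd_up_inv.mpr ⟨by omega, h2.mono (by omega), by omega⟩⟩
      rw [up_mem] at h
      omega
    · refine ⟨fun h => ?_, 0, Bd_up.mpr ⟨by omega, h2, le_rfl⟩,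
        Bd_up_inv.mpr ⟨by omega, h2.mono (by omega), by omega⟩⟩
      rw [up_mem] at h
      omega

/-! ### the tree -/

/-- the vertices -/
abbrev VV (δ : DD E) : Type := GG E ⧸ HH δ

/-- adjacency -/
def adj (δ : DD E) (u v : VV δ) : Prop :=
  ∃ x z : GG E, A1 δ z ∧ u = (x : VV δ) ∧ v = ((x * z : GG E) : VV δ)

theorem adj_mk {x y : GG E} : adj δ (x : VV δ) (y : VV δ) ↔ A1 δ (x⁻¹ * y) := by
  constructor
  · rintro ⟨a, z, hz, h1, h2⟩
    rw [QuotientGroup.eq] at h1 h2
    have e : x⁻¹ * y = (x⁻¹ * a) * z * (y⁻¹ * (a * z))⁻¹ := by group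
    rw [e]
    exact hz.congr h1 ((HH δ).inv_mem h2)
  · intro h
    exact ⟨x, x⁻¹ * y, h, rfl, by rw [mul_inv_cancel_left]⟩

theorem adj_symm {u v : VV δ} (h : adj δ u v) : adj δ v u := by
  obtain ⟨x, z, hz, rfl, rfl⟩ := h
  exact ⟨x * z, z⁻¹, hz.inv, rfl, by rw [mul_inv_cancel_right]⟩

variable (δ)

/-- the tree -/
def TT : SimpleGraph (VV δ) where
  Adj := adj δ
  symm := ⟨fun _ _ h => adj_symm h⟩
  loopless := ⟨by
    intro v h
    induction v using QuotientGroup.induction_on with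
    | H x =>
      rw [adj_mk, inv_mul_cancel] at h
      exact h.1 (HH δ).one_mem⟩

variable {δ}

/-- the coordinates of a vertex -/
theorem exists_up (v : VV δ) : ∃ (p a : E) (hp : p ≠ 0), v = (up p a hp : VV δ) := by
  induction v using QuotientGroup.induction_on with
  | H x =>
    -- the elementary matrices
    have key : ∀ y : GG E, y.val 1 0 = 0 → ∃ (p a : E) (hp : p ≠ 0), (y : VV δ) = (up p a hp : VV δ) := by
      intro y h0
      obtain ⟨q, hq⟩ : ∃ q, q = y.val 1 1 := ⟨_, rfl⟩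
      obtain ⟨p, hp⟩ : ∃ p, p = y.val 0 0 := ⟨_, rfl⟩
      obtain ⟨b, hb⟩ : ∃ b, b = y.val 0 1 := ⟨_, rfl⟩
      have hy : y.val = !![p, b; 0, q] := by
        ext i j
        fin_cases i <;> fin_cases j
        · exact hp.symm
        · exact hb.symm
        · exact h0
        · exact hq.symm
      have h1 : y.val * (y⁻¹).val = 1 := y.mul_inv
      have h2 : (y⁻¹).val * y.val = 1 := y.inv_mul
      have hq0 : q ≠ 0 := by
        rintro hq0
        have := congrFun (congrFun h1 1) 1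
        rw [hy, Matrix.mul_apply, Fin.sum_univ_two, hq0] at this
        simp at this
      have hp0 : p ≠ 0 := by
        rintro hp0
        have := congrFun (congrFun h2 0) 0
        rw [hy, Matrix.mul_apply, Fin.sum_univ_two, hp0] at this
        simp at this
      let d : GG E :=
        { val := !![q, 0; 0, q]
          inv := !![q⁻¹, 0; 0, q⁻¹]
          val_inv := by
            rw [Matrix.mul_fin_two]
            simp [Matrix.one_fin_two, hq0]
          inv_val := by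
            rw [Matrix.mul_fin_two]
            simp [Matrix.one_fin_two, hq0] }
      have hd : d ∈ HH δ := by
        refine ⟨δ.D q, ?_, ?_⟩
        · intro i j
          show δ.M ((!![q, 0; 0, q] : Matrix (Fin 2) (Fin 2) E) i j) _
          fin_cases i <;> fin_cases j
          · exact fun _ => le_rfl
          · exact DD.M.zero _
          · exact DD.M.zero _
          · exact fun _ => le_rfl
        · intro i j
          show δ.M ((!![q⁻¹, 0; 0, q⁻¹] : Matrix (Fin 2) (Fin 2) E) i j) _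
          fin_cases i <;> fin_cases j
          · exact fun _ => (δ.inv q hq0).le
          · exact DD.M.zero _
          · exact DD.M.zero _
          · exact fun _ => (δ.inv q hq0).le
      refine ⟨p * q⁻¹, b * q⁻¹, mul_ne_zero hp0 (inv_ne_zero hq0), ?_⟩
      have e : up (p * q⁻¹) (b * q⁻¹) (mul_ne_zero hp0 (inv_ne_zero hq0)) = y * d⁻¹ := by
        rw [eq_mul_inv_iff_mul_eq]
        apply Units.ext
        rw [Units.val_mul, up_val, hy]
        show !![p * q⁻¹, b * q⁻¹; 0, 1] * !![q, 0; 0, q] = _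
        rw [Matrix.mul_fin_two]
        simp [hq0]
      rw [e, QuotientGroup.eq, inv_mul_cancel_left]
      exact (HH δ).inv_mem hd
    -- reduction
    have red : ∀ y : GG E, y.val 1 1 ≠ 0 → δ.M ((y.val 1 1)⁻¹ * y.val 1 0) 0 →
        ∃ (p a : E) (hp : p ≠ 0), (y : VV δ) = (up p a hp : VV δ) := by
      intro y hy hM
      obtain ⟨c, hc⟩ : ∃ c, c = (y.val 1 1)⁻¹ * y.val 1 0 := ⟨_, rfl⟩
      rw [← hc] at hM
      let l : GG E :=
        { val := !![1, 0; -c, 1]
          inv := !![1, 0; c, 1]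
          val_inv := by
            rw [Matrix.mul_fin_two]
            simp [Matrix.one_fin_two]
          inv_val := by
            rw [Matrix.mul_fin_two]
            simp [Matrix.one_fin_two] }
      have hl : l ∈ HH δ := by
        refine ⟨0, ?_, ?_⟩
        · intro i j
          show δ.M ((!![1, 0; -c, 1] : Matrix (Fin 2) (Fin 2) E) i j) _
          fin_cases i <;> fin_cases j
          · exact DD.M.one
          · exact DD.M.zero _
          · exact hM.neg
          · exact DD.M.one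
        · intro i j
          show δ.M ((!![1, 0; c, 1] : Matrix (Fin 2) (Fin 2) E) i j) _
          fin_cases i <;> fin_cases j
          · exact DD.M.one
          · exact DD.M.zero _
          · exact hM
          · exact DD.M.one
      have e1 : (y : VV δ) = ((y * l : GG E) : VV δ) := by
        rw [QuotientGroup.eq, inv_mul_cancel_left]
        exact hl
      rw [e1]
      refine key _ ?_
      rw [Units.val_mul, Matrix.mul_apply, Fin.sum_univ_two]
      show y.val 1 0 * 1 + y.val 1 1 * (-c) = 0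
      rw [hc, mul_one, mul_neg, mul_inv_cancel_left₀ hy, add_neg_cancel]
    -- the swap
    let s : GG E :=
      { val := !![0, 1; 1, 0]
        inv := !![0, 1; 1, 0]
        val_inv := by
          rw [Matrix.mul_fin_two]
          simp [Matrix.one_fin_two]
        inv_val := by
          rw [Matrix.mul_fin_two]
          simp [Matrix.one_fin_two] }
    have hs : s ∈ HH δ := by
      have h0 : ∀ i j, δ.M ((!![0, 1; 1, 0] : Matrix (Fin 2) (Fin 2) E) i j) 0 := by
        intro i j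
        fin_cases i <;> fin_cases j
        · exact DD.M.zero _
        · exact DD.M.one
        · exact DD.M.one
        · exact DD.M.zero _
      exact ⟨0, h0, h0⟩
    have e1 : (x : VV δ) = ((x * s : GG E) : VV δ) := by
      rw [QuotientGroup.eq, inv_mul_cancel_left]
      exact hs
    have s0 : (x * s).val 1 0 = x.val 1 1 := by
      rw [Units.val_mul, Matrix.mul_apply, Fin.sum_univ_two]
      show x.val 1 0 * 0 + x.val 1 1 * 1 = _
      simp
    have s1 : (x * s).val 1 1 = x.val 1 0 := by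
      rw [Units.val_mul, Matrix.mul_apply, Fin.sum_univ_two]
      show x.val 1 0 * 1 + x.val 1 1 * 0 = _
      simp
    by_cases h1 : x.val 1 1 = 0
    · have h2 : (x * s).val 1 0 = 0 := by rw [s0, h1]
      rw [e1]
      exact key _ h2
    · by_cases h2 : x.val 1 0 = 0
      · exact key _ h2
      · rcases le_total (δ.D (x.val 1 0)) (δ.D (x.val 1 1)) with h3 | h3
        · refine red x h1 fun _ => ?_
          rw [δ.mul _ _ (inv_ne_zero h1) h2, δ.inv _ h1]
          omega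
        · rw [e1]
          refine red (x * s) (by rw [s1]; exact h2) fun _ => ?_
          rw [s1, s0, δ.mul _ _ (inv_ne_zero h2) h1, δ.inv _ h2]
          omega

theorem up_eq {p a q b : E} {hp : p ≠ 0} {hq : q ≠ 0} :
    (up p a hp : VV δ) = (up q b hq : VV δ) ↔ δ.D p = δ.D q ∧ δ.M (b - a) (δ.D p) := by
  rw [QuotientGroup.eq, up_inv_mul, up_mem, δ.mul _ _ (inv_ne_zero hp) hq, δ.inv _ hp]
  constructor
  · rintro ⟨h1, h2⟩
    refine ⟨by omega, fun h => ?_⟩
    have := h2 (mul_ne_zero (inv_ne_zero hp) h)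
    rw [δ.mul _ _ (inv_ne_zero hp) h, δ.inv _ hp] at this
    omega
  · rintro ⟨h1, h2⟩
    refine ⟨by omega, fun h => ?_⟩
    have h' := right_ne_zero_of_mul h
    rw [δ.mul _ _ (inv_ne_zero hp) h', δ.inv _ hp]
    have := h2 h'
    omega

theorem up_adj {p a q b : E} {hp : p ≠ 0} {hq : q ≠ 0} :
    adj δ (up p a hp : VV δ) (up q b hq : VV δ) ↔
      (δ.D q = δ.D p + 1 ∧ δ.M (b - a) (δ.D p + 1)) ∨ (δ.D q = δ.D p - 1 ∧ δ.M (b - a) (δ.D p)) := by
  have hM : ∀ n : ℤ, δ.M (p⁻¹ * (b - a)) n ↔ δ.M (b - a) (δ.D p + n) := by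
    intro n
    constructor
    · intro h h1
      have := h (mul_ne_zero (inv_ne_zero hp) h1)
      rw [δ.mul _ _ (inv_ne_zero hp) h1, δ.inv _ hp] at this
      omega
    · intro h h1
      have h' := right_ne_zero_of_mul h1
      rw [δ.mul _ _ (inv_ne_zero hp) h', δ.inv _ hp]
      have := h h'
      omega
  rw [adj_mk, up_inv_mul, up_A1, δ.mul _ _ (inv_ne_zero hp) hq, δ.inv _ hp, hM, hM]
  have e1 : (-δ.D p + δ.D q = 1) ↔ (δ.D q = δ.D p + 1) := by omega
  have e2 : (-δ.D p + δ.D q = -1) ↔ (δ.D q = δ.D p - 1) := by omega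
  rw [e1, e2, add_zero]

variable (δ)

/-- the level -/
noncomputable def lam (v : VV δ) : ℤ := - δ.D (exists_up v).choose

variable {δ}

theorem lam_up {p a : E} {hp : p ≠ 0} : lam δ (up p a hp : VV δ) = - δ.D p := by
  obtain ⟨b, hq, h⟩ := (exists_up (δ := δ) (up p a hp : VV δ)).choose_spec
  rw [up_eq] at h
  unfold lam
  rw [← h.1]

variable (δ)

theorem exists_par (v : VV δ) : ∃ w, adj δ v w ∧ lam δ w = lam δ v - 1 := by
  obtain ⟨p, a, hp, rfl⟩ := exists_up v
  obtain ⟨π, hπ, hπ1⟩ := δ.pi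
  refine ⟨(up (p * π) a (mul_ne_zero hp hπ) : VV δ), ?_, ?_⟩
  · rw [up_adj, sub_self, δ.mul _ _ hp hπ, hπ1]
    exact Or.inl ⟨rfl, DD.M.zero _⟩
  · rw [lam_up, lam_up, δ.mul _ _ hp hπ, hπ1]
    omega

/-- the parent -/
noncomputable def par (v : VV δ) : VV δ := (exists_par δ v).choose

theorem par_adj (v : VV δ) : adj δ v (par δ v) := (exists_par δ v).choose_spec.1

theorem par_lam (v : VV δ) : lam δ (par δ v) = lam δ v - 1 := (exists_par δ v).choose_spec.2

variable {δ}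

theorem adj_lam {u v : VV δ} (h : adj δ u v) : lam δ v = lam δ u - 1 ∨ lam δ v = lam δ u + 1 := by
  obtain ⟨p, a, hp, rfl⟩ := exists_up u
  obtain ⟨q, b, hq, rfl⟩ := exists_up v
  rw [up_adj] at h
  rw [lam_up, lam_up]
  omega

theorem par_unique {v x y : VV δ} (hx : adj δ v x) (hy : adj δ v y)
    (h1 : lam δ x = lam δ v - 1) (h2 : lam δ y = lam δ v - 1) : x = y := by
  obtain ⟨p, a, hp, rfl⟩ := exists_up v
  obtain ⟨q, b, hq, rfl⟩ := exists_up x
  obtain ⟨r, c, hr, rfl⟩ := exists_up y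
  rw [up_adj] at hx hy
  rw [lam_up, lam_up] at h1 h2
  have hx' : δ.D q = δ.D p + 1 ∧ δ.M (b - a) (δ.D p + 1) := by
    rcases hx with h | h
    · exact h
    · omega
  have hy' : δ.D r = δ.D p + 1 ∧ δ.M (c - a) (δ.D p + 1) := by
    rcases hy with h | h
    · exact h
    · omega
  rw [up_eq]
  refine ⟨by omega, ?_⟩
  have h3 := hy'.2.sub hx'.2
  rw [sub_sub_sub_cancel_right] at h3
  exact h3.mono (by omega)

theorem par_up {π : E} (hπ : π ≠ 0) (hπ1 : δ.D π = 1) (p a : E) (hp : p ≠ 0) :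
    par δ (up p a hp : VV δ) = (up (p * π) a (mul_ne_zero hp hπ) : VV δ) := by
  refine par_unique (par_adj δ _) ?_ (par_lam δ _) ?_
  · rw [up_adj, sub_self, δ.mul _ _ hp hπ, hπ1]
    exact Or.inl ⟨rfl, DD.M.zero _⟩
  · rw [lam_up, lam_up, δ.mul _ _ hp hπ, hπ1]
    omega

theorem par_iter {π : E} (hπ : π ≠ 0) (hπ1 : δ.D π = 1) (a : E) (n : ℕ) : ∀ (p : E) (hp : p ≠ 0),
    ∃ (q : E) (hq : q ≠ 0), δ.D q = δ.D p + n ∧
      (par δ)^[n] (up p a hp : VV δ) = (up q a hq : VV δ) := by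
  induction n with
  | zero =>
    intro p hp
    exact ⟨p, hp, by simp, rfl⟩
  | succ n ih =>
    intro p hp
    obtain ⟨q, hq, h1, h2⟩ := ih (p * π) (mul_ne_zero hp hπ)
    refine ⟨q, hq, ?_, ?_⟩
    · rw [h1, δ.mul _ _ hp hπ, hπ1]
      push_cast
      ring
    · rw [Function.iterate_succ_apply, par_up hπ hπ1, h2]

theorem common (u v : VV δ) : ∃ n m : ℕ, (par δ)^[n] u = (par δ)^[m] v := by
  obtain ⟨π, hπ, hπ1⟩ := δ.pi
  obtain ⟨p, a, hp, rfl⟩ := exists_up u
  obtain ⟨q, b, hq, rfl⟩ := exists_up v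
  -- a common degree
  obtain ⟨N, hN1, hN2, hN3⟩ : ∃ N : ℤ, δ.D p ≤ N ∧ δ.D q ≤ N ∧ δ.M (b - a) N :=
    ⟨max (max (δ.D p) (δ.D q)) (δ.D (b - a)), by simp, by simp, fun _ => by simp⟩
  refine ⟨(N - δ.D p).toNat, (N - δ.D q).toNat, ?_⟩
  obtain ⟨p', hp', h1, h2⟩ := par_iter hπ hπ1 a (N - δ.D p).toNat p hp
  obtain ⟨q', hq', h3, h4⟩ := par_iter hπ hπ1 b (N - δ.D q).toNat q hq
  rw [h2, h4, up_eq]
  rw [Int.toNat_of_nonneg (by omega)] at h1 h3
  refine ⟨by omega, hN3.mono (by omega)⟩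

variable (δ)

/-- **the tree is a tree** -/
theorem isTree : (TT δ).IsTree :=
  Pool.Agent.W2helper34.GT.isTree_of_levels (TT δ) (lam δ) (par δ) (fun _ _ h => adj_lam h)
    (fun _ _ _ h1 h2 h3 h4 => par_unique h1 h2 h3 h4) (par_adj δ) common

theorem TT_act (g : GG E) (u v : VV δ) (h : (TT δ).Adj u v) : (TT δ).Adj (g • u) (g • v) := by
  obtain ⟨x, z, hz, rfl, rfl⟩ := h
  exact ⟨g * x, z, hz, rfl, by rw [mul_assoc]; rfl⟩

/-- the elements of the stabilizer of a vertex are bounded up to a shift -/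
theorem stab_Bd (v : VV δ) : ∃ k : ℤ, ∀ g : GG E, g • v = v →
    ∃ n, Bd δ (n + k) g.val ∧ Bd δ (-n + k) (g⁻¹).val := by
  induction v using QuotientGroup.induction_on with
  | H x =>
    obtain ⟨a, ha⟩ := exists_Bd δ x.val
    obtain ⟨b, hb⟩ := exists_Bd δ (x⁻¹).val
    refine ⟨a + b, fun g hg => ?_⟩
    have h1 : x⁻¹ * (g * x) ∈ HH δ := by
      rw [← QuotientGroup.eq]
      exact hg.symm
    obtain ⟨n, h2, h3⟩ := h1
    refine ⟨n, ?_, ?_⟩
    · have e : g = x * (x⁻¹ * (g * x)) * x⁻¹ := by group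
      rw [e, Units.val_mul, Units.val_mul]
      exact ((ha.mul h2).mul hb).mono (by omega)
    · have e : g⁻¹ = x * (x⁻¹ * (g * x))⁻¹ * x⁻¹ := by group
      rw [e, Units.val_mul, Units.val_mul]
      exact ((ha.mul h3).mul hb).mono (by omega)

/-- an invertible matrix has an entry which is not zero -/
theorem exists_ne (g : GG E) : ∃ i j, g.val i j ≠ 0 := by
  by_contra h
  push Not at h
  have h1 : g.val = 0 := by
    ext i j
    exact h i j
  have h2 : g.val * (g⁻¹).val = 1 := g.mul_inv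
  rw [h1, zero_mul] at h2
  have := congrFun (congrFun h2 0) 0
  simp at this

/-- **Groups of `2 × 2` matrices over a division ring with a discrete valuation.** Suppose that the
entries of the elements of `G` have degree at least zero, and that for every `k` there is a homomorphism
to a group in `C` whose kernel contains no nontrivial element of degree at most `k`. Then `G` is in
`C`. -/
theorem main_val {C : ∀ (G : Type) [Group G], Prop} (hC : ClosedE C) {G : Type} [Group G]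
    (ρ : G →* GG E) (hpos : ∀ g i j, (ρ g).val i j ≠ 0 → 0 ≤ δ.D ((ρ g).val i j))
    (h : ∀ k : ℤ, ∃ (P : Type) (_ : Group P) (f : G →* P), C P ∧
      ∀ g, Bd δ k (ρ g).val → f g = 1 → g = 1) : C G := by
  let _ : MulAction G (VV δ) := MulAction.compHom (VV δ) ρ
  refine Pool.Agent.N24.TR.tree_local hC (isTree δ) (fun g u v h => TT_act δ (ρ g) u v h)
    fun v => ?_
  obtain ⟨k, hk⟩ := stab_Bd δ v
  obtain ⟨P, _, f, hP, hf⟩ := h (k + k)
  refine ⟨P, inferInstance, f, hP, fun g hg h1 => hf g ?_ h1⟩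
  obtain ⟨n, h2, h3⟩ := hk (ρ g) hg
  obtain ⟨i, j, hij⟩ := exists_ne (ρ g)⁻¹
  have h4 := h3 i j hij
  have h5 : 0 ≤ δ.D (((ρ g)⁻¹).val i j) := by
    rw [← map_inv] at hij ⊢
    exact hpos _ _ _ hij
  exact h2.mono (by omega)

end Pool.Agent.W2helper34.GR
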