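import Pool.Agent.W2helper34.GR.Skew

/-!
# Graded rings which embed in division rings
-/

set_option autoImplicit false
set_option linter.unusedSectionVars false

namespace Pool.Agent.W2helper34.GR

open Pool.Agent.Y110.FJ (ClosedE)
open Pool.Agent.W2helper6.FA
open Polynomial DirectSum

section poly

variable {E : Type} [DivisionRing E]

theorem poly_sum (c : ℕ →₀ E) (n : ℕ) :
    (c.sum fun i s => (X : E[X]) ^ i * C s).coeff n = c n := by
  classical
  rw [Finsupp.sum, finsetSum_coeff]
  have h1 : ∀ i ∈ c.support, ((X : E[X]) ^ i * C (c i)).coeff n = if n = i then c i else 0 := by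
    intro i _
    rw [X_pow_mul_C, coeff_C_mul, coeff_X_pow]
    by_cases h : n = i
    · rw [if_pos h, if_pos h, mul_one]
    · rw [if_neg h, if_neg h, mul_zero]
  rw [Finset.sum_congr rfl h1, Finset.sum_ite_eq]
  by_cases h : n ∈ c.support
  · rw [if_pos h]
  · rw [if_neg h, Finsupp.notMem_support_iff.mp h]

/-- polynomial rings are skew polynomial rings -/
theorem poly_basis : RightBasis (C : E →+* E[X]) fun n : ℕ => (X : E[X]) ^ n := by
  constructor
  · intro c c' h
    ext n
    rw [← poly_sum c n, ← poly_sum c' n]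
    exact congrArg (fun p : E[X] => p.coeff n) h
  · intro p
    refine ⟨Finsupp.onFinset p.support p.coeff (fun n hn => mem_support_iff.mpr hn), ?_⟩
    ext n
    show (Finsupp.sum _ _ : E[X]).coeff n = _
    rw [poly_sum]
    rfl

theorem poly_co (p : E[X]) (n : ℕ) : (poly_basis (E := E)).co p n = p.coeff n := by
  conv_rhs => rw [← (poly_basis (E := E)).comb_co p]
  exact (poly_sum _ n).symm

end poly

section graded

variable {R ς : Type} [Ring R] [SetLike ς R] [AddSubgroupClass ς R] (𝒜 : ℕ → ς) [GradedRing 𝒜]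
  {E : Type} [DivisionRing E] (ι : R →+* E)

/-- the embedding of the components -/
noncomputable def comp (i : ℕ) : 𝒜 i →+ E[X] :=
  ((monomial i : E →ₗ[E] E[X]).toAddMonoidHom.comp ι.toAddMonoidHom).comp
      (AddSubmonoidClass.subtype (𝒜 i))

theorem comp_apply (i : ℕ) (a : 𝒜 i) : comp 𝒜 ι i a = monomial i (ι a) := rfl

/-- the embedding of a direct sum in a polynomial ring -/
noncomputable def theta' : (⨁ i, 𝒜 i) →+* E[X] :=
  DirectSum.toSemiring (comp 𝒜 ι)
    (by
      rw [comp_apply, SetLike.coe_gOne, map_one, monomial_zero_left, map_one])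
    (by
      intro i j a b
      rw [comp_apply, comp_apply, comp_apply, SetLike.coe_gMul, map_mul, monomial_mul_monomial])

theorem theta'_coeff (u : ⨁ i, 𝒜 i) (n : ℕ) : (theta' 𝒜 ι u).coeff n = ι (u n : R) := by
  classical
  induction u using DirectSum.induction_on with
  | zero =>
    rw [map_zero, coeff_zero, DirectSum.zero_apply, ZeroMemClass.coe_zero, map_zero]
  | of i a =>
    unfold theta'
    rw [DirectSum.toSemiring_of, comp_apply, coeff_monomial]
    by_cases h : i = n
    · subst h
      rw [if_pos rfl, DirectSum.of_eq_same]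
    · rw [if_neg h, DirectSum.of_eq_of_ne _ _ _ (Ne.symm h), ZeroMemClass.coe_zero, map_zero]
  | add u v hu hv =>
    rw [map_add, coeff_add, hu, hv, DirectSum.add_apply, AddMemClass.coe_add, map_add]

/-- the embedding of a graded ring in a polynomial ring -/
noncomputable def theta : R →+* E[X] :=
  (theta' 𝒜 ι).comp (DirectSum.decomposeRingEquiv 𝒜).toRingHom

theorem theta_coeff (a : R) (n : ℕ) : (theta 𝒜 ι a).coeff n = ι (decompose 𝒜 a n : R) :=
  theta'_coeff 𝒜 ι _ n

theorem theta_injective (hι : Function.Injective ι) : Function.Injective (theta 𝒜 ι) := by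
  rw [injective_iff_map_eq_zero]
  intro a ha
  have h1 : decompose 𝒜 a = 0 := by
    ext n
    have h2 := theta_coeff 𝒜 ι a n
    rw [ha, coeff_zero] at h2
    rw [DirectSum.zero_apply, ZeroMemClass.coe_zero]
    exact (map_eq_zero_iff ι hι).mp h2.symm
  exact (decompose 𝒜).injective (by rw [h1, decompose_zero])

/-- **Graded rings which embed in division rings.** -/
theorem graded_main {C : ∀ (G : Type) [Group G], Prop} (hC : ClosedE C)
    (hS : ∀ (G : Type) [Group G], Group.IsSolvable G → C G) (hι : Function.Injective ι)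
    (h0 : C (GG (𝒜 0))) : C (GG R) := by
  -- the ring of the elements of degree zero
  let S : Subring E :=
    { carrier := {s | ∃ a : 𝒜 0, ι (a : R) = s}
      mul_mem' := by
        rintro _ _ ⟨a, rfl⟩ ⟨b, rfl⟩
        exact ⟨a * b, by rw [SetLike.GradeZero.coe_mul, map_mul]⟩
      one_mem' := ⟨1, by rw [SetLike.GradeZero.coe_one, map_one]⟩
      add_mem' := by
        rintro _ _ ⟨a, rfl⟩ ⟨b, rfl⟩
        exact ⟨a + b, by rw [AddMemClass.coe_add, map_add]⟩
      zero_mem' := ⟨0, by rw [ZeroMemClass.coe_zero, map_zero]⟩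
      neg_mem' := by
        rintro _ ⟨a, rfl⟩
        exact ⟨-a, by rw [NegMemClass.coe_neg, map_neg]⟩ }
  have hex : ∀ s : S, ∃ a : 𝒜 0, ι (a : R) = s := fun s => s.2
  choose ψ hψ using hex
  have hinj : ∀ a b : 𝒜 0, ι (a : R) = ι (b : R) → a = b := fun a b h => Subtype.ext (hι h)
  let Ψ : S →+* 𝒜 0 :=
    { toFun := ψ
      map_one' := hinj _ _ (by rw [hψ, SetLike.GradeZero.coe_one, map_one]; rfl)
      map_mul' := fun s t => hinj _ _ (by
        rw [hψ, SetLike.GradeZero.coe_mul, map_mul, hψ, hψ]; rfl)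
      map_zero' := hinj _ _ (by
        rw [hψ]
        exact (map_zero ι).symm)
      map_add' := fun s t => hinj _ _ (by
        rw [hψ]
        show (s : E) + (t : E) = ι ((ψ s : R) + (ψ t : R))
        rw [map_add, hψ, hψ]) }
  have hΨ : Function.Injective Ψ := by
    intro s t h
    apply Subtype.ext
    rw [← hψ s, ← hψ t]
    exact congrArg (fun a : 𝒜 0 => ι (a : R)) h
  have hCS : C (GG S) := hC.base.of_injective _ _ (GGm Ψ) (GGm_injective hΨ) h0
  have hcr : ∀ s : E, (Polynomial.C s : E[X]) * X = X * Polynomial.C ((RingEquiv.refl E) s) := by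
    intro s
    exact (X_mul_C s).symm
  have h1 := skew_main (σ := RingEquiv.refl E) hcr poly_basis hC hS (theta 𝒜 ι).range S
    (fun r hr => by
      obtain ⟨a, rfl⟩ := hr
      rw [poly_co, theta_coeff]
      exact ⟨_, rfl⟩) hCS
  refine hC.base.of_injective _ _ (GGm (theta 𝒜 ι).rangeRestrict) (GGm_injective ?_) h1
  intro a b hab
  exact theta_injective 𝒜 ι hι (congrArg Subtype.val hab)

end graded

end Pool.Agent.W2helper34.GR
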