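import Pool.Agent.W2helper34.GR.Trunc
import Pool.Agent.W2helper6.FA.Ore

/-!
# `2 × 2` matrices over left Ore domains with a degree function
-/

set_option autoImplicit false

namespace Pool.Agent.W2helper34.GR

open Pool.Agent.Y110.FJ (ClosedE)
open Pool.Agent.N506.EX
open Pool.Agent.W2helper6.FA

/-- the degree function of a left Ore domain extends to the division ring of fractions -/
theorem exists_DD {R : Type} [Ring R] [NoZeroDivisors R] [Nontrivial R] (hLO : LO R)
    {w : R → ℤ} (hw : IsDegree w) (hnt : ∃ x : R, x ≠ 0 ∧ w x ≠ 0) :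
    ∃ (F : Type) (_ : DivisionRing F) (δ : DD F) (j : R →+* F) (e : ℤ), Function.Injective j ∧
      0 < e ∧ ∀ x, x ≠ 0 → w x = e * δ.D (j x) := by
  -- the group of the values
  let H : AddSubgroup ℤ :=
    { carrier := {n | ∃ a b : R, a ≠ 0 ∧ b ≠ 0 ∧ n = w b - w a}
      zero_mem' := ⟨1, 1, one_ne_zero, one_ne_zero, by omega⟩
      add_mem' := by
        rintro _ _ ⟨a, b, ha, hb, rfl⟩ ⟨a', b', ha', hb', rfl⟩
        refine ⟨a * a', b * b', mul_ne_zero ha ha', mul_ne_zero hb hb', ?_⟩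
        rw [hw.mul _ _ ha ha', hw.mul _ _ hb hb']
        omega
      neg_mem' := by
        rintro _ ⟨a, b, ha, hb, rfl⟩
        exact ⟨b, a, hb, ha, by omega⟩ }
  have hw1 : w 1 = 0 := by
    have := hw.mul 1 1 one_ne_zero one_ne_zero
    rw [mul_one] at this
    omega
  obtain ⟨k', hk'⟩ := Int.subgroup_cyclic H
  obtain ⟨k, hk, hkn⟩ : ∃ k : ℤ, H = AddSubgroup.closure {k} ∧ 0 ≤ k := by
    rcases le_total 0 k' with h | h
    · exact ⟨k', hk', h⟩
    · refine ⟨-k', ?_, by omega⟩
      rw [hk']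
      apply le_antisymm
      · rw [AddSubgroup.closure_le]
        rintro x (rfl : x = k')
        rw [SetLike.mem_coe, AddSubgroup.mem_closure_singleton]
        exact ⟨-1, by simp⟩
      · rw [AddSubgroup.closure_le]
        rintro x (rfl : x = -k')
        rw [SetLike.mem_coe, AddSubgroup.mem_closure_singleton]
        exact ⟨-1, by simp⟩
  have hkm : ∀ n, n ∈ H ↔ k ∣ n := by
    intro n
    rw [hk, AddSubgroup.mem_closure_singleton]
    constructor
    · rintro ⟨c, rfl⟩
      exact ⟨c, by rw [smul_eq_mul, mul_comm]⟩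
    · rintro ⟨c, rfl⟩
      exact ⟨c, by rw [smul_eq_mul, mul_comm]⟩
  have hkw : ∀ x, x ≠ 0 → k ∣ w x := fun x hx => (hkm _).mp ⟨1, x, one_ne_zero, hx, by omega⟩
  have hk0 : k ≠ 0 := by
    rintro rfl
    obtain ⟨x, hx, hwx⟩ := hnt
    have := hkw x hx
    rw [zero_dvd_iff] at this
    exact hwx this
  have hkpos : 0 < k := lt_of_le_of_ne hkn hk0.symm
  obtain ⟨a, b, ha, hb, hab⟩ := (hkm k).mpr dvd_rfl
  -- the division ring of fractions
  have hOre : Nonempty (OreLocalization.OreSet (nonZeroDivisors R)) := by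
    rw [OreLocalization.nonempty_oreSet_iff_of_noZeroDivisors]
    intro r s
    obtain ⟨r', s', hs', h1⟩ := hLO r s (nonZeroDivisors.ne_zero s.2)
    exact ⟨r', ⟨s', mem_nonZeroDivisors_of_ne_zero hs'⟩, h1⟩
  obtain ⟨inst⟩ := hOre
  let E := OreLocalization (nonZeroDivisors R) R
  let j : R →+* E := OreLocalization.numeratorRingHom
  have hj : Function.Injective j := OreLocalization.numeratorHom_inj (by
    intro x hx
    exact (mem_nonZeroDivisors_iff.mp hx).1)
  have hfrac : ∀ a : E, ∃ s r, s ≠ 0 ∧ j s * a = j r := by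
    intro a
    induction a using OreLocalization.ind with
    | _ r s =>
      refine ⟨s, r, nonZeroDivisors.ne_zero s.2, ?_⟩
      change ((s : R) /ₒ 1) * (r /ₒ s) = r /ₒ 1
      exact OreLocalization.mul_cancel
  -- the valuation
  have hdiv : ∀ x, x ≠ 0 → k * (w x / k) = w x := fun x hx => Int.mul_ediv_cancel' (hkw x hx)
  have hmul : ∀ x y, x ≠ 0 → y ≠ 0 → -(w (x * y) / k) = -(w x / k) + -(w y / k) := by
    intro x y hx hy
    rw [hw.mul x y hx hy, Int.add_ediv_of_dvd_left (hkw x hx)]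
    ring
  have hadd : ∀ x y, x ≠ 0 → y ≠ 0 → x + y ≠ 0 →
      min (-(w x / k)) (-(w y / k)) ≤ -(w (x + y) / k) := by
    intro x y hx hy hxy
    have h1 := hw.add x y hx hy hxy
    rcases le_max_iff.mp h1 with h2 | h2
    · have := Int.ediv_le_ediv hkpos h2
      exact min_le_of_left_le (by omega)
    · have := Int.ediv_le_ediv hkpos h2
      exact min_le_of_right_le (by omega)
  obtain ⟨ww, hww⟩ : ∃ ww : R → ℤ, ww = fun x => -(w x / k) := ⟨_, rfl⟩
  have hmul' : ∀ x y, x ≠ 0 → y ≠ 0 → ww (x * y) = ww x + ww y := by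
    rw [hww]
    exact hmul
  have hadd' : ∀ x y, x ≠ 0 → y ≠ 0 → x + y ≠ 0 → min (ww x) (ww y) ≤ ww (x + y) := by
    rw [hww]
    exact hadd
  have hja : j a ≠ 0 := fun h => ha (hj (by rw [h, map_zero]))
  have hjb : j b ≠ 0 := fun h => hb (hj (by rw [h, map_zero]))
  obtain ⟨t, ht, hvt⟩ : ∃ t : E, t ≠ 0 ∧ vfrac j hfrac ww t = 1 := by
    refine ⟨(j b)⁻¹ * j a, mul_ne_zero (inv_ne_zero hjb) hja, ?_⟩
    rw [vfrac_eq hLO j hj hfrac ww hmul' (mul_ne_zero (inv_ne_zero hjb) hja) hb (r := a)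
      (by rw [← mul_assoc, mul_inv_cancel₀ hjb, one_mul])]
    simp only [hww]
    have h1 := hdiv a ha
    have h2 := hdiv b hb
    have h3 : k * (w b / k - w a / k) = k * 1 := by rw [mul_sub, h1, h2]; omega
    have h4 := mul_left_cancel₀ hk0 h3
    omega
  let V : DV E := dvOfOre hLO j hj hfrac ww hmul' hadd' t ht hvt
  have hVj : ∀ x, x ≠ 0 → V.v (j x) = ww x := fun x hx => vfrac_j hLO j hj hfrac ww hmul' hx
  refine ⟨E, inferInstance,
    { D := fun x => - V.v x
      mul := fun x y hx hy => by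
        rw [V.map_mul x y hx hy]
        ring
      add := fun x y hx hy hxy => by
        have := V.map_add x y hx hy hxy
        rcases min_le_iff.mp this with h | h
        · exact le_max_of_le_left (by omega)
        · exact le_max_of_le_right (by omega)
      pi := ⟨V.t⁻¹, inv_ne_zero V.t_ne, by
        have h1 := V.map_mul V.t V.t⁻¹ V.t_ne (inv_ne_zero V.t_ne)
        rw [mul_inv_cancel₀ V.t_ne, V.v_one, V.v_t] at h1
        omega⟩ }, j, k, hj, hkpos, ?_⟩
  intro x hx
  show w x = k * -(V.v (j x))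
  rw [hVj x hx, hww]
  simp only [neg_neg]
  exact (hdiv x hx).symm

/-- **Groups of `2 × 2` matrices over a left Ore domain with a degree function.** -/
theorem ore_main {C : ∀ (G : Type) [Group G], Prop} (hC : ClosedE C) {T : Type} [Ring T]
    [NoZeroDivisors T] [Nontrivial T] (hLO : LO T) {w : T → ℤ} (hw : IsDegree w)
    (hw0 : ∀ a, a ≠ 0 → 0 ≤ w a) {G : Type} [Group G] (ρ : G →* GG T)
    (h : ∀ k : ℕ, ∃ (P : Type) (_ : Group P) (f : G →* P), C P ∧
      ∀ g, (∀ i j, (ρ g).val i j ≠ 0 → w ((ρ g).val i j) ≤ k) → f g = 1 → g = 1) : C G := by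
  by_cases hnt : ∃ x : T, x ≠ 0 ∧ w x ≠ 0
  · obtain ⟨F, _, δ, j, e, hj, he, hD⟩ := exists_DD hLO hw hnt
    have hne : ∀ x : T, j x ≠ 0 → x ≠ 0 := by
      rintro x hx rfl
      exact hx (map_zero j)
    refine main_val (δ := δ) hC ((GGm j).comp ρ) ?_ ?_
    · intro g i l hg
      have h1 : j ((ρ g).val i l) ≠ 0 := hg
      show 0 ≤ δ.D (j ((ρ g).val i l))
      have h2 := hD _ (hne _ h1)
      have h3 := hw0 _ (hne _ h1)
      rw [h2] at h3
      exact nonneg_of_mul_nonneg_right h3 he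
    · intro k
      obtain ⟨P, _, f, hP, hf⟩ := h (e * |k|).toNat
      refine ⟨P, inferInstance, f, hP, fun g hg h1 => hf g (fun i l hil => ?_) h1⟩
      have h2 : j ((ρ g).val i l) ≠ 0 := fun h => hil (hj (by rw [h, map_zero]))
      have h3 : δ.D (j ((ρ g).val i l)) ≤ k := hg i l h2
      rw [hD _ hil, Int.toNat_of_nonneg (mul_nonneg he.le (abs_nonneg k))]
      exact mul_le_mul_of_nonneg_left (h3.trans (le_abs_self k)) he.le
  · push Not at hnt
    obtain ⟨P, _, f, hP, hf⟩ := h 0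
    refine hC.base.of_injective _ _ f ?_ hP
    rw [injective_iff_map_eq_one]
    intro g hg
    exact hf g (fun i l hil => by rw [hnt _ hil]; simp) hg

end Pool.Agent.W2helper34.GR
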