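import Pool.Agent.W2helper34.GR.Ore

/-!
# Subrings of skew polynomial rings over division rings
-/

set_option autoImplicit false

namespace Pool.Agent.W2helper34.GR

open Pool.Agent.Y110.FJ (ClosedE)
open Pool.Agent.N506.EX
open Pool.Agent.W2helper6.FA

section

variable {E T : Type} [DivisionRing E] [Ring T] {inc : E →+* T} {x : T} {σ : E ≃+* E}
  (hc : ∀ s, inc s * x = x * inc (σ s)) (h : RightBasis inc fun n : ℕ => x ^ n)

theorem LO_div : LO E := by
  intro a b hb
  exact ⟨a * b⁻¹, 1, one_ne_zero, by rw [one_mul, inv_mul_cancel_right₀ hb]⟩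

include hc in
theorem hc' (s : E) : inc s * x = x * inc (σ s) + inc ((fun _ => (0 : E)) s) := by
  rw [hc, map_zero, add_zero]

/-- the terms of an element -/
theorem expand (r : T) : r = inc (h.co r 0) + x * ∑ i ∈ (h.co r).support.erase 0,
    x ^ (i - 1) * inc (h.co r i) := by
  classical
  have h1 := h.sum_co r (insert 0 (h.co r).support) (fun j hj => by
    rw [Finset.mem_insert, not_or] at hj
    exact Finsupp.notMem_support_iff.mp hj.2)
  conv_lhs => rw [← h1]
  have h2 : insert 0 (h.co r).support = insert 0 ((h.co r).support.erase 0) := by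
    ext i
    simp only [Finset.mem_insert, Finset.mem_erase]
    tauto
  rw [h2, Finset.sum_insert (by simp), pow_zero, one_mul, Finset.mul_sum]
  congr 1
  refine Finset.sum_congr rfl fun i hi => ?_
  have hi0 : i ≠ 0 := (Finset.mem_erase.mp hi).1
  rw [← mul_assoc, ← pow_succ']
  congr 2
  omega

/-- every element is a constant plus a multiple of `x` -/
theorem exists_tail (r : T) : ∃ t, r = inc (h.co r 0) + x * t := ⟨_, expand h r⟩

theorem co_x_mul (t : T) (n : ℕ) : h.co (x * t) n = if n = 0 then 0 else h.co t (n - 1) := by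
  classical
  have h1 := h.sum_co t (h.co t).support (fun j hj => Finsupp.notMem_support_iff.mp hj)
  have h2 : x * t = ∑ j ∈ (h.co t).support, x ^ (j + 1) * inc (h.co t j) := by
    conv_lhs => rw [← h1]
    rw [Finset.mul_sum]
    refine Finset.sum_congr rfl fun i _ => ?_
    rw [← mul_assoc, ← pow_succ']
  rw [h2, map_sum, Finsupp.finsetSum_apply]
  simp only [co_mono]
  by_cases hn : n = 0
  · rw [if_pos hn]
    refine Finset.sum_eq_zero fun j _ => ?_
    rw [Finsupp.single_eq_of_ne (by omega)]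
  · rw [if_neg hn]
    by_cases hs : n - 1 ∈ (h.co t).support
    · rw [Finset.sum_eq_single_of_mem _ hs]
      · have e : n - 1 + 1 = n := by omega
        rw [e, Finsupp.single_eq_same]
      · intro j _ hj
        rw [Finsupp.single_eq_of_ne (by omega)]
    · rw [Finsupp.notMem_support_iff.mp hs]
      refine Finset.sum_eq_zero fun j hj => ?_
      have : j ≠ n - 1 := fun h => hs (h ▸ hj)
      rw [Finsupp.single_eq_of_ne (by omega)]

theorem co_pow_mul (k : ℕ) : ∀ (t : T) (n : ℕ), n < k → h.co (x ^ k * t) n = 0 := by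
  induction k with
  | zero => intro t n hn; omega
  | succ k ih =>
    intro t n hn
    rw [pow_succ', mul_assoc, co_x_mul]
    by_cases h0 : n = 0
    · rw [if_pos h0]
    · rw [if_neg h0]
      exact ih t _ (by omega)

include hc h in
/-- `x` is normal -/
theorem mul_x (r : T) : ∃ r', r * x = x * r' := by
  have h1 := h.sum_co r (h.co r).support (fun j hj => Finsupp.notMem_support_iff.mp hj)
  refine ⟨∑ i ∈ (h.co r).support, x ^ i * inc (σ (h.co r i)), ?_⟩
  conv_lhs => rw [← h1]
  rw [Finset.sum_mul, Finset.mul_sum]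
  refine Finset.sum_congr rfl fun i _ => ?_
  rw [mul_assoc, hc, ← mul_assoc, ← mul_assoc, ← pow_succ, ← pow_succ']

include hc h in
theorem mul_pow_x (k : ℕ) : ∀ r : T, ∃ r', r * x ^ k = x ^ k * r' := by
  induction k with
  | zero => exact fun r => ⟨r, by simp⟩
  | succ k ih =>
    intro r
    obtain ⟨r', h1⟩ := ih r
    obtain ⟨r'', h2⟩ := mul_x hc h r'
    exact ⟨r'', by rw [pow_succ, ← mul_assoc, h1, mul_assoc, h2, ← mul_assoc]⟩

include hc in
theorem co_zero_mul (r s : T) : h.co (r * s) 0 = h.co r 0 * h.co s 0 := by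
  obtain ⟨r', hr'⟩ := exists_tail h r
  obtain ⟨s', hs'⟩ := exists_tail h s
  obtain ⟨t, ht⟩ := mul_x hc h (inc (h.co r 0))
  have h1 : r * s = inc (h.co r 0 * h.co s 0) + x * (t * s' + r' * s) := by
    conv_lhs => rw [hr', add_mul, mul_assoc]
    rw [map_mul, mul_add, ← mul_assoc x t, ← ht, mul_assoc (inc (h.co r 0)) x s']
    conv_lhs =>
      enter [1, 2]
      rw [hs']
    rw [mul_add, add_assoc]
  have h2 : h.co (inc (h.co r 0 * h.co s 0)) 0 = h.co r 0 * h.co s 0 := by
    have := co_mono h 0 (h.co r 0 * h.co s 0)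
    rw [pow_zero, one_mul] at this
    rw [this, Finsupp.single_eq_same]
  rw [h1, map_add, Finsupp.add_apply, h2, co_x_mul, if_pos rfl, add_zero]

theorem co_one_zero : h.co (1 : T) 0 = 1 := by
  have := co_mono h 0 (1 : E)
  rw [pow_zero, one_mul, map_one] at this
  rw [this, Finsupp.single_eq_same]

/-- the constant coefficient -/
noncomputable def cc : T →+* E where
  toFun r := h.co r 0
  map_one' := co_one_zero h
  map_mul' := co_zero_mul hc h
  map_zero' := by
    show h.co 0 0 = 0
    rw [map_zero h.co]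
    rfl
  map_add' r s := by
    show h.co (r + s) 0 = _
    rw [map_add h.co]
    rfl

theorem cc_eq_zero {r : T} (hr : cc hc h r = 0) : ∃ t, r = x * t := by
  obtain ⟨t, ht⟩ := exists_tail h r
  have h1 : h.co r 0 = 0 := hr
  rw [h1, map_zero, zero_add] at ht
  exact ⟨t, ht⟩

/-- the elements of the subring `R` divisible by `x ^ (k + 1)` -/
noncomputable def II (R : Subring T) (k : ℕ) : Ideal R where
  carrier := {r | ∃ t, (r : T) = x ^ (k + 1) * t}
  zero_mem' := ⟨0, by simp⟩
  add_mem' := by
    rintro a b ⟨s, hs⟩ ⟨t, ht⟩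
    exact ⟨s + t, by rw [Subring.coe_add, hs, ht, mul_add]⟩
  smul_mem' := by
    rintro c a ⟨s, hs⟩
    obtain ⟨c', hc'⟩ := mul_pow_x hc h (k + 1) (c : T)
    refine ⟨c' * s, ?_⟩
    rw [smul_eq_mul, Subring.coe_mul, hs, ← mul_assoc, hc', mul_assoc]

theorem mem_II {R : Subring T} {k : ℕ} {r : R} :
    r ∈ II hc h R k ↔ ∃ t, (r : T) = x ^ (k + 1) * t := Iff.rfl

instance (R : Subring T) (k : ℕ) : (II hc h R k).IsTwoSided where
  mul_mem_of_left {a} b ha := by
    obtain ⟨s, hs⟩ := ha
    exact ⟨s * b, by rw [Subring.coe_mul, hs, mul_assoc]⟩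

include hc in
/-- **Subrings of skew polynomial rings.** -/
theorem skew_main {C : ∀ (G : Type) [Group G], Prop} (hC : ClosedE C)
    (hS : ∀ (G : Type) [Group G], Group.IsSolvable G → C G) (R : Subring T) (S : Subring E)
    (hRS : ∀ r ∈ R, h.co r 0 ∈ S) (hCS : C (GG S)) : C (GG R) := by
  have hc'' := hc' hc
  have := ore_noZeroDivisors hc'' h
  have : Nontrivial T := by
    refine ⟨⟨1, 0, fun h1 => ?_⟩⟩
    have h2 := co_one_zero h
    rw [h1, map_zero h.co] at h2
    exact zero_ne_one h2
  -- the quotients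
  have h0 : C (GG (R ⧸ II hc h R 0)) := by
    let φ : R →+* S := ((cc hc h).comp R.subtype).codRestrict S (fun r => hRS r r.2)
    have hφ : ∀ r ∈ II hc h R 0, φ r = 0 := by
      rintro r ⟨t, ht⟩
      apply Subtype.ext
      show h.co (r : T) 0 = 0
      rw [ht, zero_add, pow_one, co_x_mul, if_pos rfl]
    refine hC.base.of_injective _ _ (GGm (Ideal.Quotient.lift _ φ hφ)) (GGm_injective ?_) hCS
    rw [injective_iff_map_eq_zero]
    intro r hr
    obtain ⟨r, rfl⟩ := Ideal.Quotient.mk_surjective r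
    rw [Ideal.Quotient.lift_mk] at hr
    rw [Ideal.Quotient.eq_zero_iff_mem]
    obtain ⟨t, ht⟩ := cc_eq_zero hc h (r := (r : T)) (congrArg Subtype.val hr)
    exact ⟨t, by rw [zero_add, pow_one]; exact ht⟩
  have hk := trunc hC hS (II hc h R)
    (fun k r hr => by
      obtain ⟨t, ht⟩ := hr
      exact ⟨x * t, by rw [ht, pow_succ _ (k + 1), mul_assoc]⟩)
    (fun k a ha b hb => by
      obtain ⟨s, hs⟩ := ha
      obtain ⟨t, ht⟩ := hb
      obtain ⟨s', hs'⟩ := mul_x hc h s
      refine ⟨s' * (x ^ k * t), ?_⟩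
      have e : x ^ (k + 1) * t = x * (x ^ k * t) := by rw [pow_succ', mul_assoc]
      have e2 : x ^ (k + 1) * s * (x * (x ^ k * t)) = x ^ (k + 1) * ((s * x) * (x ^ k * t)) := by
        simp only [mul_assoc]
      rw [Subring.coe_mul, hs, ht, e, e2, hs', pow_succ _ (k + 1)]
      simp only [mul_assoc]) h0
  refine ore_main hC (ore_LO hc'' h LO_div) (isDegree_dg hc'' h)
    (fun a _ => by unfold dg; exact Int.natCast_nonneg _) (GGm R.subtype) fun k => ?_
  refine ⟨_, inferInstance, GGm (Ideal.Quotient.mk (II hc h R k)), hk k, fun g hg h1 => ?_⟩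
  apply Units.ext
  rw [Units.val_one, ← sub_eq_zero]
  ext i j
  obtain ⟨t, ht⟩ := (Ideal.Quotient.eq_zero_iff_mem.mp (GGm_eq_one h1 i j) :
    (g.val - 1) i j ∈ II hc h R k)
  -- the degree
  have h2 : (((g.val - 1) i j : R) : T) ∈ Pool.Agent.W2helper6.FA.DD h (k + 1) := by
    have e : (((g.val - 1) i j : R) : T) = (g.val i j : R) - (((1 : Matrix (Fin 2) (Fin 2) R) i j : R) : T) := by
      rw [Matrix.sub_apply]
      rfl
    rw [e]
    refine sub_mem ?_ ?_
    · by_cases h3 : ((g.val i j : R) : T) = 0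
      · rw [h3]
        exact zero_mem _
      · exact dg_le h (hg i j h3)
    · by_cases hij : i = j
      · subst hij
        rw [Matrix.one_apply_eq]
        show (1 : T) ∈ _
        have := mono_mem h (Nat.zero_lt_succ k) (1 : E)
        rwa [pow_zero, one_mul, map_one] at this
      · rw [Matrix.one_apply_ne hij]
        show (0 : T) ∈ _
        exact zero_mem _
  have h3 : h.co (((g.val - 1) i j : R) : T) = 0 := by
    ext n
    by_cases hn : k + 1 ≤ n
    · exact h2 n hn
    · rw [ht]
      exact co_pow_mul h (k + 1) t n (by omega)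
  exact (AddEquiv.map_eq_zero_iff h.co).mp h3

end

end Pool.Agent.W2helper34.GR
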