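import Pool.Agent.W2helper34.GR.Val
import Pool.Agent.W2helper34.GT.Comp

/-!
# Nilpotent extensions of rings and their `2 × 2` matrices
-/

set_option autoImplicit false

namespace Pool.Agent.W2helper34.GR

open Pool.Agent.Y110.FJ (ClosedE)
open Pool.Agent.W2helper34.GT (solv_ext C_quot_of_hom)

/-- the homomorphism of the groups of invertible matrices given by a homomorphism of rings -/
noncomputable def GGm {A B : Type} [Ring A] [Ring B] (φ : A →+* B) : GG A →* GG B :=
  Units.map (φ.mapMatrix (m := Fin 2)).toMonoidHom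

theorem GGm_val {A B : Type} [Ring A] [Ring B] (φ : A →+* B) (g : GG A) (i j : Fin 2) :
    (GGm φ g).val i j = φ (g.val i j) := rfl

theorem GGm_eq_one {A B : Type} [Ring A] [Ring B] {φ : A →+* B} {g : GG A} (h : GGm φ g = 1)
    (i j : Fin 2) : φ ((g.val - 1) i j) = 0 := by
  have h1 : (GGm φ g).val i j = (1 : Matrix (Fin 2) (Fin 2) B) i j := by
    rw [h]
    rfl
  rw [Matrix.sub_apply, map_sub, ← GGm_val, h1, sub_eq_zero]
  by_cases hij : i = j
  · subst hij
    rw [Matrix.one_apply_eq, Matrix.one_apply_eq, map_one]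
  · rw [Matrix.one_apply_ne hij, Matrix.one_apply_ne hij, map_zero]

theorem GGm_injective {A B : Type} [Ring A] [Ring B] {φ : A →+* B} (hφ : Function.Injective φ) :
    Function.Injective (GGm φ) := by
  rw [injective_iff_map_eq_one]
  intro g hg
  apply Units.ext
  rw [Units.val_one, ← sub_eq_zero]
  ext i j
  have := GGm_eq_one hg i j
  exact (map_eq_zero_iff φ hφ).mp this

/-- square zero extensions -/
theorem sqz {C : ∀ (G : Type) [Group G], Prop} (hC : ClosedE C)
    (hS : ∀ (G : Type) [Group G], Group.IsSolvable G → C G) {A B : Type} [Ring A] [Ring B]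
    (φ : A →+* B) (hφ : ∀ a b, φ a = 0 → φ b = 0 → a * b = 0) (hB : C (GG B)) : C (GG A) := by
  refine solv_ext hC hS (GGm φ).ker ?_
    (C_quot_of_hom hC _ (GGm φ) hB (fun n hn => hn) (fun g hg => hg))
  refine Group.isSolvable_of_comm fun a b => ?_
  apply Subtype.ext
  apply Units.ext
  show a.1.val * b.1.val = b.1.val * a.1.val
  obtain ⟨m, hm⟩ : ∃ m, m = a.1.val - 1 := ⟨_, rfl⟩
  obtain ⟨n, hn⟩ : ∃ n, n = b.1.val - 1 := ⟨_, rfl⟩
  have ha : a.1.val = 1 + m := by rw [hm]; abel
  have hb : b.1.val = 1 + n := by rw [hn]; abel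
  have hm0 : ∀ i j, φ (m i j) = 0 := by
    intro i j
    rw [hm]
    exact GGm_eq_one a.2 i j
  have hn0 : ∀ i j, φ (n i j) = 0 := by
    intro i j
    rw [hn]
    exact GGm_eq_one b.2 i j
  have hmn : m * n = 0 := by
    ext i j
    rw [Matrix.mul_apply]
    exact Finset.sum_eq_zero fun k _ => hφ _ _ (hm0 i k) (hn0 k j)
  have hnm : n * m = 0 := by
    ext i j
    rw [Matrix.mul_apply]
    exact Finset.sum_eq_zero fun k _ => hφ _ _ (hn0 i k) (hm0 k j)
  rw [ha, hb]
  simp only [mul_add, add_mul, mul_one, one_mul, hmn, hnm]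
  abel

/-- nilpotent extensions -/
theorem trunc {C : ∀ (G : Type) [Group G], Prop} (hC : ClosedE C)
    (hS : ∀ (G : Type) [Group G], Group.IsSolvable G → C G) {A : Type} [Ring A] (I : ℕ → Ideal A)
    [hI : ∀ k, (I k).IsTwoSided] (hle : ∀ k, I (k + 1) ≤ I k)
    (hsq : ∀ k, ∀ a ∈ I k, ∀ b ∈ I k, a * b ∈ I (k + 1)) (h0 : C (GG (A ⧸ I 0))) :
    ∀ k, C (GG (A ⧸ I k)) := by
  intro k
  induction k with
  | zero => exact h0
  | succ k ih =>
    refine sqz hC hS (Ideal.Quotient.factor (hle k)) ?_ ih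
    intro a b ha hb
    obtain ⟨a, rfl⟩ := Ideal.Quotient.mk_surjective a
    obtain ⟨b, rfl⟩ := Ideal.Quotient.mk_surjective b
    rw [Ideal.Quotient.factor_mk, Ideal.Quotient.eq_zero_iff_mem] at ha hb
    rw [← map_mul, Ideal.Quotient.eq_zero_iff_mem]
    exact hsq k a ha b hb

end Pool.Agent.W2helper34.GR
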